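import Pool.Agent.Lib.MP_b07157_agX.XDefs

noncomputable section

namespace MPb07157

namespace AX

open MvPolynomial

variable {n : ℕ} {ι : Type} [Fintype ι]

/-- In generic coordinates there are finitely many flags: `E` is determined by hyperplanes
`b_0, …, b_{n-1}` with `pair a E (b_i) l = 0` for `i < l`. -/
theorem flags_finite {a : ι → Fin n → ℂ} (hgen : Gen a) :
    {E : Matrix (Fin n) (Fin n) ℂ | IsFlag a E}.Finite := by
  sorry

theorem mem_FL {a : ι → Fin n → ℂ} (hgen : Gen a) {E : Matrix (Fin n) (Fin n) ℂ} :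
    E ∈ FL a ↔ IsFlag a E := by
  rw [FL, dif_pos (flags_finite hgen)]
  simp

/-- Flags with the same columns except the column `q` differ by a shear. -/
theorem off_shear {a : ι → Fin n → ℂ} (hgen : Gen a) {E₀ E : Matrix (Fin n) (Fin n) ℂ}
    (hE₀ : IsFlag a E₀) (hE : IsFlag a E) (p q : Fin n) (hq : (q : ℕ) = (p : ℕ) + 1)
    (h : ∀ l : Fin n, l ≠ q → ∀ i, E i l = E₀ i l) : ∃ z : ℂ, E = shear E₀ p q z := by
  sorry

/-- The forms of a lower level together with one further form not vanishing on the flat take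
independent values: if `ℓ_j` does not vanish on `e_q, …, e_{n-1}`, then it does not vanish
on the first of these vectors. -/
theorem pair_ne_zero {a : ι → Fin n → ℂ} (hgen : Gen a) {E : Matrix (Fin n) (Fin n) ℂ}
    (hE : IsFlag a E) (j : ι) (q : Fin n) (hq : (q : ℕ) ≤ lv a E j) (ha : a j ≠ 0) :
    pair a E j q ≠ 0 := by
  sorry

end AX

end MPb07157
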