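import Pool.Agent.Lib.MP_b07157_agX.XDefs

noncomputable section

namespace MPb07157

namespace AX

open MvPolynomial

variable {n : ℕ} {ι : Type} [Fintype ι]

/-- The exponent of `ε(ℓ_j)`. -/
def lexp (a : ι → Fin n → ℂ) (E : Matrix (Fin n) (Fin n) ℂ) (j : ι) : Fin n →₀ ℕ :=
  Finsupp.equivFunOnFinite.symm fun i => if lv a E j ≤ (i : ℕ) then 1 else 0

theorem eps_lf {a : ι → Fin n → ℂ} {E : Matrix (Fin n) (Fin n) ℂ} (hE : IsUni E) (j : ι) :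
    eps E (lf (a j)) = monomial (lexp a E j) 1 * uf a E j := by
  sorry

theorem eps_arrL {a : ι → Fin n → ℂ} (m : ι → ℕ) {E : Matrix (Fin n) (Fin n) ℂ} (hE : IsUni E) :
    eps E (arrL a m) = monomial (mm a m E) 1 * UU a m E := by
  sorry

theorem coeff_uf_ne {a : ι → Fin n → ℂ} {E : Matrix (Fin n) (Fin n) ℂ} (hE : IsUni E) (j : ι)
    (ha : a j ≠ 0) : ∃ l : Fin n, (l : ℕ) = lv a E j ∧ pair a E j l ≠ 0 ∧
      constantCoeff (uf a E j) = pair a E j l ∧ ∀ l' : Fin n, l < l' → pair a E j l' = 0 := by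
  sorry

theorem coeff_UU_ne {a : ι → Fin n → ℂ} (m : ι → ℕ) {E : Matrix (Fin n) (Fin n) ℂ}
    (hE : IsUni E) (ha : ∀ j, a j ≠ 0) :
    MvPowerSeries.constantCoeff ((UU a m E : MvPolynomial (Fin n) ℂ) : MvPowerSeries (Fin n) ℂ)
      ≠ 0 := by
  sorry

theorem rho_le_mm {a : ι → Fin n → ℂ} {m : ι → ℕ} (hm : ∀ j, 0 < m j)
    {E : Matrix (Fin n) (Fin n) ℂ} (hE : IsFlag a E) : rho n ≤ mm a m E := by
  sorry

end AX

end MPb07157
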