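import Pool.Agent.Lib.MP_b07157_agX.XDefs

noncomputable section

namespace MPb07157

namespace AX

open MvPolynomial

variable {n : ℕ} {ι : Type} [Fintype ι]

/-- The weight of `y_l ∂/∂y_l` on the monomial `t^b`. -/
def dw (l : Fin n) (b : Fin n →₀ ℕ) : ℂ :=
  (b l : ℂ) - if h : (l : ℕ) = 0 then 0 else (b ⟨(l : ℕ) - 1, by omega⟩ : ℂ)

/-- The operator `y_l ∂/∂y_l`. -/
def dth (l : Fin n) (P : MvPowerSeries (Fin n) ℂ) : MvPowerSeries (Fin n) ℂ :=
  fun b => MvPowerSeries.coeff b P * dw l b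

/-- `dth l` is a derivation. -/
theorem dth_mul (l : Fin n) (P Q : MvPowerSeries (Fin n) ℂ) :
    dth l (P * Q) = dth l P * Q + P * dth l Q := by
  sorry

theorem yv_eps_dirD (E : Matrix (Fin n) (Fin n) ℂ) (l : Fin n) (g : MvPolynomial (Fin n) ℂ) :
    ((monomial (yv l) 1 * eps E (dirD (fun i => E i l) g) : MvPolynomial (Fin n) ℂ) :
      MvPowerSeries (Fin n) ℂ) = dth l ((eps E g : MvPolynomial (Fin n) ℂ) : MvPowerSeries (Fin n) ℂ) := by
  sorry

end AX

end MPb07157
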