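import Pool.Agent.Lib.MP_b07157_agX.XB
import Pool.Agent.Lib.MP_b07157_agX.XB2

noncomputable section

namespace MPb07157

namespace AX

open MvPolynomial

variable {n : ℕ} {ι : Type} [Fintype ι]

theorem Res_add (a : ι → Fin n → ℂ) (m : ι → ℕ) (E : Matrix (Fin n) (Fin n) ℂ)
    (P Q : MvPowerSeries (Fin n) ℂ) (M : ℕ) :
    Res a m E (P + Q) M = Res a m E P M + Res a m E Q M := by
  sorry

theorem Res_smul (a : ι → Fin n → ℂ) (m : ι → ℕ) (E : Matrix (Fin n) (Fin n) ℂ)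
    (z : ℂ) (P : MvPowerSeries (Fin n) ℂ) (M : ℕ) :
    Res a m E (z • P) M = z * Res a m E P M := by
  sorry

/-- `Res (P f / f^{M+1}) = Res (P / f^M)`. -/
theorem Res_mul_arrL {a : ι → Fin n → ℂ} {m : ι → ℕ} (ha : ∀ j, a j ≠ 0) (hm : ∀ j, 0 < m j)
    {E : Matrix (Fin n) (Fin n) ℂ} (hE : IsFlag a E) (P : MvPowerSeries (Fin n) ℂ) {M : ℕ}
    (hM : 1 ≤ M) :
    Res a m E (P * ((eps E (arrL a m) : MvPolynomial (Fin n) ℂ) : MvPowerSeries (Fin n) ℂ)) (M + 1)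
      = Res a m E P M := by
  sorry

/-- Integration by parts: the residue of `y_l ∂_l (P Q / f^M)` is zero if `P` is a multiple of
`y_0 ⋯ y_{l-1} y_{l+1} ⋯ y_{n-1}`; in the form needed below. -/
theorem Res_dth {a : ι → Fin n → ℂ} {m : ι → ℕ} (ha : ∀ j, a j ≠ 0) (hm : ∀ j, 0 < m j)
    {E : Matrix (Fin n) (Fin n) ℂ} (hE : IsFlag a E) (l : Fin n) (P : MvPowerSeries (Fin n) ℂ)
    (c : MvPolynomial (Fin n) ℂ) {M : ℕ} (hM : 1 ≤ M) (Q : MvPowerSeries (Fin n) ℂ)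
    (hQ : dth l P = ((monomial (yv l) 1 : MvPolynomial (Fin n) ℂ) : MvPowerSeries (Fin n) ℂ) * Q) :
    Res a m E (Q * ((eps E c : MvPolynomial (Fin n) ℂ) : MvPowerSeries (Fin n) ℂ)) M =
      - Res a m E (P * ((eps E (arrL a m * dirD (fun i => E i l) c
        - C (M : ℂ) * dirD (fun i => E i l) (arrL a m) * c) : MvPolynomial (Fin n) ℂ) :
          MvPowerSeries (Fin n) ℂ)) (M + 1) := by
  sorry

/-- The residue of a derivative is zero. -/
theorem Res_deriv {a : ι → Fin n → ℂ} {m : ι → ℕ} (ha : ∀ j, a j ≠ 0) (hm : ∀ j, 0 < m j)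
    {E : Matrix (Fin n) (Fin n) ℂ} (hE : IsFlag a E) (v : Fin n → ℂ)
    (c : MvPolynomial (Fin n) ℂ) {M : ℕ} (hM : 1 ≤ M) :
    Res a m E ((eps E (arrL a m * dirD v c - C (M : ℂ) * dirD v (arrL a m) * c) :
      MvPolynomial (Fin n) ℂ) : MvPowerSeries (Fin n) ℂ) (M + 1) = 0 := by
  sorry

end AX

end MPb07157
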