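import Pool.Agent.Lib.MP_b07157_agX.XC

noncomputable section

namespace MPb07157

namespace AX

open MvPolynomial

variable {n : ℕ} {ι : Type} [Fintype ι]

/-- The pairing of a derivative, for one flag. -/
theorem Lam_dirD {a : ι → Fin n → ℂ} {m : ι → ℕ} (ha : ∀ j, a j ≠ 0) (hm : ∀ j, 0 < m j)
    {E : Matrix (Fin n) (Fin n) ℂ} (hE : IsFlag a E) {k : ℕ} (hk : k ≤ n) (w : Fin n → ℂ)
    (g : MvPolynomial (Fin n) ℂ) (hg : ∀ j, lf (a j) ∣ g) (c : MvPolynomial (Fin n) ℂ) {M : ℕ}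
    (hM : 1 ≤ M) :
    Lam a m E k (dirD (E.mulVec w) g) c M =
      (∑ l ∈ below n k, w l * (Xt a m E ((below n k).erase l) (yexp n k - yv l) g c M -
        if h : (l : ℕ) = 0 then 0 else
          Xt a m E ((below n k).erase ⟨(l : ℕ) - 1, by omega⟩) (yexp n k - yv l) g c M))
      - Lam a m E k g (arrL a m * dirD (tailv E w k) c
          - C (M : ℂ) * dirD (tailv E w k) (arrL a m) * c) (M + 1) := by
  sorry

end AX

end MPb07157
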