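import Pool.Agent.Lib.MP_b07157_ag.Defs

/-!
# Hyperplane arrangements over `ℂ`: flags, residues and the pairings `Lam`

`x = ∑_l y_l e_l` for the columns `e_l` of an upper unitriangular matrix `E`, and
`y_l = ∏_{i ≥ l} t_i`.
-/

noncomputable section

namespace MPb07157

namespace AX

open MvPolynomial

variable {n : ℕ} {ι : Type} [Fintype ι]

/-- The linear form with coefficients `a`. -/
def lf (a : Fin n → ℂ) : MvPolynomial (Fin n) ℂ := ∑ i, C (a i) * X i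

/-- `∏_j ℓ_j^{m_j}`. -/
def arrL (a : ι → Fin n → ℂ) (m : ι → ℕ) : MvPolynomial (Fin n) ℂ := ∏ j, lf (a j) ^ m j

/-- The derivative in the direction `v`. -/
def dirD (v : Fin n → ℂ) (g : MvPolynomial (Fin n) ℂ) : MvPolynomial (Fin n) ℂ :=
  ∑ i, C (v i) * pderiv i g

/-- The coordinates are generic: `l` linearly independent forms remain independent on the span of
the first `l` coordinate vectors. -/
def Gen (a : ι → Fin n → ℂ) : Prop :=
  ∀ (l : ℕ) (hl : l ≤ n) (b : Fin l → ι), LinearIndependent ℂ (fun i => a (b i)) →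
    (Matrix.of fun i j : Fin l => a (b i) (Fin.castLE hl j)).det ≠ 0

/-- Upper unitriangular matrices. -/
structure IsUni (E : Matrix (Fin n) (Fin n) ℂ) : Prop where
  diag : ∀ i, E i i = 1
  low : ∀ i j, j < i → E i j = 0

/-- The value `ℓ_j(e_l)`. -/
def pair (a : ι → Fin n → ℂ) (E : Matrix (Fin n) (Fin n) ℂ) (j : ι) (l : Fin n) : ℂ :=
  ∑ i, a j i * E i l

/-- The subspaces spanned by `e_l, …, e_{n-1}` are flats of codimension `l`. -/
def IsFlag (a : ι → Fin n → ℂ) (E : Matrix (Fin n) (Fin n) ℂ) : Prop :=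
  IsUni E ∧ ∀ l : Fin n, ∃ j, pair a E j l ≠ 0 ∧ ∀ l', l < l' → pair a E j l' = 0

open Classical in
/-- The finite set of all flags (see `flags_finite`). -/
def FL (a : ι → Fin n → ℂ) : Finset (Matrix (Fin n) (Fin n) ℂ) :=
  if h : {E : Matrix (Fin n) (Fin n) ℂ | IsFlag a E}.Finite then h.toFinset else ∅

/-- The level of the form `ℓ_j` with respect to a flag: the last `l` with `ℓ_j(e_l) ≠ 0`. -/
def lv (a : ι → Fin n → ℂ) (E : Matrix (Fin n) (Fin n) ℂ) (j : ι) : ℕ :=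
  open Classical in (Finset.univ.filter fun l : Fin n => pair a E j l ≠ 0).sup fun l => (l : ℕ)

/-- The factor `u_j` in `ε(ℓ_j) = y_{lv j} u_j`. -/
def uf (a : ι → Fin n → ℂ) (E : Matrix (Fin n) (Fin n) ℂ) (j : ι) : MvPolynomial (Fin n) ℂ :=
  ∑ l : Fin n, C (pair a E j l) *
    ∏ i ∈ Finset.univ.filter (fun i : Fin n => l ≤ i ∧ (i : ℕ) < lv a E j), X i

/-- The factor `U` in `ε(f) = t^{mm} U`. -/
def UU (a : ι → Fin n → ℂ) (m : ι → ℕ) (E : Matrix (Fin n) (Fin n) ℂ) :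
    MvPolynomial (Fin n) ℂ :=
  ∏ j, uf a E j ^ m j

/-- The exponent `mm` in `ε(f) = t^{mm} U`: the multiplicities of the flats of the flag. -/
def mm (a : ι → Fin n → ℂ) (m : ι → ℕ) (E : Matrix (Fin n) (Fin n) ℂ) : Fin n →₀ ℕ :=
  Finsupp.equivFunOnFinite.symm fun l => ∑ j, if lv a E j ≤ (l : ℕ) then m j else 0

/-- The exponent `(1, 2, …, n)` of `y_0 ⋯ y_{n-1}` in `t`. -/
def rho (n : ℕ) : Fin n →₀ ℕ := Finsupp.equivFunOnFinite.symm fun l => (l : ℕ) + 1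

/-- The exponent of `y_0 ⋯ y_{k-1}` in `t`. -/
def yexp (n k : ℕ) : Fin n →₀ ℕ := Finsupp.equivFunOnFinite.symm fun l => min ((l : ℕ) + 1) k

/-- The exponent of `y_l` in `t`. -/
def yv (l : Fin n) : Fin n →₀ ℕ := Finsupp.equivFunOnFinite.symm fun i => if l ≤ i then 1 else 0

/-- `x_i ↦ ∑_l E_{il} y_l`. -/
def del (E : Matrix (Fin n) (Fin n) ℂ) : MvPolynomial (Fin n) ℂ →ₐ[ℂ] MvPolynomial (Fin n) ℂ :=
  aeval fun i => ∑ l, C (E i l) * X l

/-- `y_l ↦ ∏_{i ≥ l} t_i`. -/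
def mu : MvPolynomial (Fin n) ℂ →ₐ[ℂ] MvPolynomial (Fin n) ℂ :=
  aeval fun l => monomial (yv l) 1

/-- The substitution `ε : ℂ[x] → ℂ[t]`. -/
def eps (E : Matrix (Fin n) (Fin n) ℂ) : MvPolynomial (Fin n) ℂ →ₐ[ℂ] MvPolynomial (Fin n) ℂ :=
  mu.comp (del E)

/-- The residue `coeff_{M mm - (1, …, n)} (P U^{-M})`. -/
def Res (a : ι → Fin n → ℂ) (m : ι → ℕ) (E : Matrix (Fin n) (Fin n) ℂ)
    (P : MvPowerSeries (Fin n) ℂ) (M : ℕ) : ℂ :=
  MvPowerSeries.coeff (M • mm a m E - rho n)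
    (P * ((UU a m E : MvPowerSeries (Fin n) ℂ)⁻¹) ^ M)

/-- Division of the coefficient of `t^b` by `∏_{l ∈ K} b_l`. -/
def Einv (K : Finset (Fin n)) (P : MvPowerSeries (Fin n) ℂ) : MvPowerSeries (Fin n) ℂ :=
  fun b => MvPowerSeries.coeff b P * ∏ l ∈ K, ((b l : ℂ))⁻¹

/-- `{l | l < k}`. -/
def below (n k : ℕ) : Finset (Fin n) := Finset.univ.filter fun l : Fin n => (l : ℕ) < k

/-- The pairing `Res (Einv_K (t^e ε(g)) ε(c) / f^M)`. -/
def Xt (a : ι → Fin n → ℂ) (m : ι → ℕ) (E : Matrix (Fin n) (Fin n) ℂ) (K : Finset (Fin n))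
    (e : Fin n →₀ ℕ) (g c : MvPolynomial (Fin n) ℂ) (M : ℕ) : ℂ :=
  Res a m E (Einv K ((monomial e 1 * eps E g : MvPolynomial (Fin n) ℂ) : MvPowerSeries (Fin n) ℂ) *
    (eps E c : MvPowerSeries (Fin n) ℂ)) M

/-- The pairing `Λ_k`. -/
def Lam (a : ι → Fin n → ℂ) (m : ι → ℕ) (E : Matrix (Fin n) (Fin n) ℂ) (k : ℕ)
    (g c : MvPolynomial (Fin n) ℂ) (M : ℕ) : ℂ :=
  Xt a m E (below n k) (yexp n k) g c M

open Classical in
/-- The flags with the same columns as `E₀` from `k` on. -/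
def cls (a : ι → Fin n → ℂ) (E₀ : Matrix (Fin n) (Fin n) ℂ) (k : ℕ) :
    Finset (Matrix (Fin n) (Fin n) ℂ) :=
  (FL a).filter fun E => ∀ l : Fin n, k ≤ (l : ℕ) → ∀ i, E i l = E₀ i l

open Classical in
/-- The flags with the same columns as `E₀` except possibly the column `q`. -/
def off (a : ι → Fin n → ℂ) (E₀ : Matrix (Fin n) (Fin n) ℂ) (q : Fin n) :
    Finset (Matrix (Fin n) (Fin n) ℂ) :=
  (FL a).filter fun E => ∀ l : Fin n, l ≠ q → ∀ i, E i l = E₀ i l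

/-- Replace the column `q` by the column `q` plus `z` times the column `p`. -/
def shear (E : Matrix (Fin n) (Fin n) ℂ) (p q : Fin n) (z : ℂ) : Matrix (Fin n) (Fin n) ℂ :=
  fun i l => if l = q then E i q + z * E i p else E i l

/-- The part `∑_{l ≥ k} w_l e_l` of the vector with coordinates `w`. -/
def tailv (E : Matrix (Fin n) (Fin n) ℂ) (w : Fin n → ℂ) (k : ℕ) : Fin n → ℂ :=
  fun i => ∑ l : Fin n, if k ≤ (l : ℕ) then w l * E i l else 0

/-- A function of `N` which is a rational function without pole at `s₀` for large `N`. -/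
def Good (s₀ : ℂ) (φ : ℕ → ℂ) : Prop :=
  ∃ A D : Polynomial ℂ, D.eval s₀ ≠ 0 ∧ ∃ N₀ : ℕ, ∀ N ≥ N₀, D.eval (N : ℂ) * φ N = A.eval (N : ℂ)

/-- Specialization `s = N`. -/
def evS (N : ℕ) (c : MvPolynomial (Fin n) (Polynomial ℂ)) : MvPolynomial (Fin n) ℂ :=
  map (Polynomial.evalRingHom (N : ℂ)) c

/-- The forms `ℓ_j`, `j ∈ F`, are irreducible (not a direct sum of two nonempty subsets). -/
def Irred (a : ι → Fin n → ℂ) : Prop :=
  open Classical in
  ∀ G : Finset ι, G.Nonempty → Gᶜ.Nonempty →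
    ¬ Disjoint (Submodule.span ℂ (a '' (G : Set ι))) (Submodule.span ℂ (a '' ((Gᶜ : Finset ι) : Set ι)))

/-- `f / ∏_i ℓ_{b_i}`. -/
def numer (a : ι → Fin n → ℂ) (m : ι → ℕ) (b : Fin n → ι) : MvPolynomial (Fin n) ℂ :=
  open Classical in ∏ j, lf (a j) ^ (m j - (Finset.univ.filter fun i => b i = j).card)

/-- The matrix of the forms `ℓ_{b_i}`. -/
def bmat (a : ι → Fin n → ℂ) (b : Fin n → ι) : Matrix (Fin n) (Fin n) ℂ :=
  Matrix.of fun i j => a (b i) j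

/-- The row vector `δ_{lv j}`. -/
def dl (a : ι → Fin n → ℂ) (E : Matrix (Fin n) (Fin n) ℂ) (j : ι) (l : Fin n) : ℂ :=
  open Classical in if lv a E j = (l : ℕ) then 1 else 0

end AX

end MPb07157
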