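import Pool.Agent.Lib.MP_b07157_agX.XB

noncomputable section

namespace MPb07157

namespace AX

open MvPolynomial

variable {n : ℕ} {ι : Type} [Fintype ι]

/-- The terms with a missing index `p` are residues of one and the same polynomial for all flags
which differ only in the flat of codimension `q = p + 1`. -/
theorem transfer (a : ι → Fin n → ℂ) (m : ι → ℕ) {E : Matrix (Fin n) (Fin n) ℂ} (hE : IsUni E)
    {k : ℕ} (hk : k ≤ n) (p q : Fin n) (hq : (q : ℕ) = (p : ℕ) + 1) (hqk : (q : ℕ) < k)
    (w : Fin n → ℂ) (g : MvPolynomial (Fin n) ℂ) :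
    ∃ G : MvPolynomial (Fin n) ℂ, ∀ (z : ℂ) (c : MvPolynomial (Fin n) ℂ) (M : ℕ),
      (w p - z * w q) * Xt a m (shear E p q z) ((below n k).erase p) (yexp n k - yv p) g c M
        - w q * Xt a m (shear E p q z) ((below n k).erase p) (yexp n k - yv q) g c M
      = Res a m (shear E p q z)
          ((eps (shear E p q z) (G * c) : MvPolynomial (Fin n) ℂ) : MvPowerSeries (Fin n) ℂ) M := by
  sorry

end AX

end MPb07157
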