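import Pool.Agent.Lib.MP_b07157_agX.XDefs

noncomputable section

namespace MPb07157

namespace AX

open MvPolynomial

variable {n : ℕ} {ι : Type} [Fintype ι]

/-- Partial fractions: a functional `R` on the products `∏_j ℓ_j^{γ_j}`, `γ_j ∈ ℤ`, which respects
the linear relations, kills derivatives, and kills the products `∏_i ℓ_{b_i}^{-1}` for the bases
`b`, is zero. -/
theorem pf_vanish (a : ι → Fin n → ℂ) (hspan : Submodule.span ℂ (Set.range a) = ⊤)
    (R : (ι → ℤ) → ℂ) [DecidableEq ι]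
    (h1 : ∀ c : ι → ℂ, ∑ j, c j • a j = 0 → ∀ γ : ι → ℤ,
      ∑ j, c j * R (γ + Pi.single j 1) = 0)
    (h2 : ∀ (v : Fin n → ℂ) (γ : ι → ℤ),
      ∑ j, (γ j : ℂ) * (∑ i, a j i * v i) * R (γ - Pi.single j 1) = 0)
    (h3 : ∀ b : Fin n → ι, Function.Injective b → (bmat a b).det ≠ 0 →
      R (fun j => - ∑ i, if b i = j then 1 else 0) = 0) (γ : ι → ℤ) : R γ = 0 := by
  sorry

end AX

end MPb07157
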