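import Pool.Agent.Lib.MP_b07157_agX.XZ3

noncomputable section

namespace MPb07157

namespace AX

open MvPolynomial

variable {n : ℕ} {ι : Type} [Fintype ι]

/-- **The strong monodromy conjecture for hyperplane arrangements**, global version. -/
theorem smcGlob_arrA (a : ι → Fin n → ℂ) (c : ι → ℂ) (m : ι → ℕ) (ha : ∀ j, a j ≠ 0)
    (hm : ∀ j, 0 < m j) : SmcGlob (arrA a c m) := by
  sorry

/-- **The strong monodromy conjecture for hyperplane arrangements**, local version. -/
theorem smcLoc_arrA (a : ι → Fin n → ℂ) (c : ι → ℂ) (m : ι → ℕ) (ha : ∀ j, a j ≠ 0)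
    (hm : ∀ j, 0 < m j) : SmcLoc (arrA a c m) := by
  sorry

end AX

end MPb07157
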