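import Pool.Agent.Lib.MP_b07157_agX.XC

noncomputable section

namespace MPb07157

namespace AX

open MvPolynomial

variable {n : ℕ} {ι : Type} [Fintype ι]

/-- `det(b) y_0 ⋯ y_{n-1} / ∏_i ℓ_{b_i}` is a power series in `t`. -/
theorem exists_Q {a : ι → Fin n → ℂ} {m : ι → ℕ} (ha : ∀ j, a j ≠ 0) (hm : ∀ j, 0 < m j)
    {E : Matrix (Fin n) (Fin n) ℂ} (hE : IsFlag a E) (b : Fin n → ι) :
    ∃ Q : MvPowerSeries (Fin n) ℂ,
      MvPowerSeries.constantCoeff Q = (Matrix.of fun i l => dl a E (b i) l).det ∧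
      ((C (bmat a b).det * (monomial (rho n) 1 * eps E (numer a m b)) : MvPolynomial (Fin n) ℂ) :
        MvPowerSeries (Fin n) ℂ) =
      ((monomial (mm a m E) 1 * UU a m E : MvPolynomial (Fin n) ℂ) : MvPowerSeries (Fin n) ℂ)
        * Q := by
  sorry

theorem Res_basis {a : ι → Fin n → ℂ} {m : ι → ℕ} (ha : ∀ j, a j ≠ 0) (hm : ∀ j, 0 < m j)
    {E : Matrix (Fin n) (Fin n) ℂ} (hE : IsFlag a E) (b : Fin n → ι) :
    (bmat a b).det * Res a m E
      ((eps E (numer a m b) : MvPolynomial (Fin n) ℂ) : MvPowerSeries (Fin n) ℂ) 1 =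
      (Matrix.of fun i l => dl a E (b i) l).det := by
  sorry

end AX

end MPb07157
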