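import Pool.Agent.Lib.MP_b07157_agX.XDefs

noncomputable section

namespace MPb07157

namespace AX

open MvPolynomial

variable {n : ℕ} {ι : Type} [Fintype ι]

/-- Existence of generic coordinates. -/
theorem exists_gen (a : ι → Fin n → ℂ) :
    ∃ g : Matrix (Fin n) (Fin n) ℂ, g.det ≠ 0 ∧ Gen (fun j => Matrix.vecMul (a j) g) := by
  sorry

end AX

end MPb07157
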