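import Pool.Agent.Lib.MP_b07157_agX.XDefs

noncomputable section

namespace MPb07157

namespace AX

open MvPolynomial

variable {n : ℕ} {ι : Type} [Fintype ι]

/-- Invariance of the Bernstein–Sato property under linear changes of coordinates. -/
theorem isBernsteinSato_linear {f : MvPolynomial (Fin n) ℂ} {b : Polynomial ℂ}
    (h : IsBernsteinSato f b) (g : Matrix (Fin n) (Fin n) ℂ) (hg : g.det ≠ 0) :
    IsBernsteinSato (aeval (fun i => ∑ l, C (g i l) * X l) f : MvPolynomial (Fin n) ℂ) b := by
  sorry

theorem arrL_linear (a : ι → Fin n → ℂ) (m : ι → ℕ) (g : Matrix (Fin n) (Fin n) ℂ) :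
    (aeval (fun i => ∑ l, C (g i l) * X l) (arrL a m) : MvPolynomial (Fin n) ℂ) =
      arrL (fun j => Matrix.vecMul (a j) g) m := by
  sorry

end AX

end MPb07157
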