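import Pool.Agent.Lib.MP_b07157_agX.XA

noncomputable section

namespace MPb07157

namespace AX

open MvPolynomial

variable {n : ℕ} {ι : Type} [Fintype ι]

/-- The residues of `∏_i ℓ_{b_i}^{-1}` along the (at most two) adapted flags which differ in one
flat cancel. -/
theorem off_sum_dl {a : ι → Fin n → ℂ} (hgen : Gen a) (ha : ∀ j, a j ≠ 0)
    {E₀ : Matrix (Fin n) (Fin n) ℂ} (hE₀ : IsFlag a E₀) (p q : Fin n)
    (hq : (q : ℕ) = (p : ℕ) + 1) (b : Fin n → ι) :
    ∑ E ∈ off a E₀ q, (Matrix.of fun i l => dl a E (b i) l).det = 0 := by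
  sorry

end AX

end MPb07157
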