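import Pool.Agent.Lib.MP_b07157_agX.XF
import Pool.Agent.Lib.MP_b07157_agX.XG
import Pool.Agent.Lib.MP_b07157_agX.XH

noncomputable section

namespace MPb07157

namespace AX

open MvPolynomial

variable {n : ℕ} {ι : Type} [Fintype ι]

/-- **Key lemma**: the sum of the residues of `c / f^M` along the flags which differ in one flat
is zero. -/
theorem key {a : ι → Fin n → ℂ} {m : ι → ℕ} (hgen : Gen a)
    (hspan : Submodule.span ℂ (Set.range a) = ⊤) (ha : ∀ j, a j ≠ 0) (hm : ∀ j, 0 < m j)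
    {E₀ : Matrix (Fin n) (Fin n) ℂ} (hE₀ : IsFlag a E₀) (p q : Fin n)
    (hq : (q : ℕ) = (p : ℕ) + 1) (c : MvPolynomial (Fin n) ℂ) {M : ℕ} (hM : 1 ≤ M) :
    ∑ E ∈ off a E₀ q, Res a m E
      ((eps E c : MvPolynomial (Fin n) ℂ) : MvPowerSeries (Fin n) ℂ) M = 0 := by
  sorry

end AX

end MPb07157
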