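import Pool.Agent.Lib.MP_b07157_agX.XD
import Pool.Agent.Lib.MP_b07157_agX.XE
import Pool.Agent.Lib.MP_b07157_agX.XI

noncomputable section

namespace MPb07157

namespace AX

open MvPolynomial

variable {n : ℕ} {ι : Type} [Fintype ι]

/-- **D-lemma**: the pairing of a derivative, summed over the flags with the same flats of
codimension `≥ k`. -/
theorem dlemma {a : ι → Fin n → ℂ} {m : ι → ℕ} (hgen : Gen a)
    (hspan : Submodule.span ℂ (Set.range a) = ⊤) (ha : ∀ j, a j ≠ 0) (hm : ∀ j, 0 < m j)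
    {E₀ : Matrix (Fin n) (Fin n) ℂ} (hE₀ : IsFlag a E₀) {k : ℕ} (hk : k ≤ n) (w : Fin n → ℂ)
    (g : MvPolynomial (Fin n) ℂ) (hg : ∀ j, lf (a j) ∣ g) (c : MvPolynomial (Fin n) ℂ) {M : ℕ}
    (hM : 1 ≤ M) :
    ∑ E ∈ cls a E₀ k, Lam a m E k (dirD (E₀.mulVec w) g) c M =
      (if h : k = 0 then 0 else
        w ⟨k - 1, by omega⟩ * ∑ E ∈ cls a E₀ k, Lam a m E (k - 1) g c M)
      - ∑ E ∈ cls a E₀ k, Lam a m E k g (arrL a m * dirD (tailv E₀ w k) c
          - C (M : ℂ) * dirD (tailv E₀ w k) (arrL a m) * c) (M + 1) := by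
  sorry

end AX

end MPb07157
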