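import Pool.Agent.Lib.MP_b07157_agX.XDefs

noncomputable section

namespace MPb07157

namespace AX

open MvPolynomial

variable {n : ℕ} {ι : Type} [Fintype ι]

theorem Good.congr {s₀ : ℂ} {φ ψ : ℕ → ℂ} (h : Good s₀ φ) (N₁ : ℕ)
    (he : ∀ N ≥ N₁, ψ N = φ N) : Good s₀ ψ := by
  sorry

theorem Good.of_poly {s₀ : ℂ} (p : Polynomial ℂ) : Good s₀ fun N => p.eval (N : ℂ) := by
  sorry

theorem Good.add {s₀ : ℂ} {φ ψ : ℕ → ℂ} (h : Good s₀ φ) (h' : Good s₀ ψ) :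
    Good s₀ fun N => φ N + ψ N := by
  sorry

theorem Good.mul {s₀ : ℂ} {φ ψ : ℕ → ℂ} (h : Good s₀ φ) (h' : Good s₀ ψ) :
    Good s₀ fun N => φ N * ψ N := by
  sorry

theorem Good.inv_linear {s₀ : ℂ} (p : Polynomial ℂ) (hp : p.eval s₀ ≠ 0)
    (hN : ∀ N : ℕ, p.eval (N : ℂ) ≠ 0) : Good s₀ fun N => (p.eval (N : ℂ))⁻¹ := by
  sorry

theorem Good.sum {s₀ : ℂ} {κ : Type} (s : Finset κ) {φ : κ → ℕ → ℂ}
    (h : ∀ i ∈ s, Good s₀ (φ i)) : Good s₀ fun N => ∑ i ∈ s, φ i N := by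
  sorry

theorem Good.prod {s₀ : ℂ} {κ : Type} (s : Finset κ) {φ : κ → ℕ → ℂ}
    (h : ∀ i ∈ s, Good s₀ (φ i)) : Good s₀ fun N => ∏ i ∈ s, φ i N := by
  sorry

/-- If `b(N) / ((d N + r) ∏_i q_i(N))` is good, then `b` vanishes at the zero `s₀` of
`d s + r`. -/
theorem root_of_good {s₀ : ℂ} (b p : Polynomial ℂ) (hp : p.eval s₀ = 0)
    (hp0 : ∀ N : ℕ, p.eval (N : ℂ) ≠ 0) (z : ℂ) (hz : z ≠ 0)
    (h : Good s₀ fun N => b.eval (N : ℂ) * (z * (p.eval (N : ℂ))⁻¹)) : b.eval s₀ = 0 := by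
  sorry

end AX

end MPb07157
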