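import Pool.Agent.Lib.MP_b07157_agX.XB
import Pool.Agent.Lib.MP_b07157_agX.XK

noncomputable section

namespace MPb07157

namespace AX

open MvPolynomial

variable {n : ℕ} {ι : Type} [Fintype ι]

/-- The pairings of `g f^{N+1}` with `c(N) / f^{N + M₀}` are rational functions of `N` with poles
`< -1`. -/
theorem good_base {a : ι → Fin n → ℂ} {m : ι → ℕ} (ha : ∀ j, a j ≠ 0) (hm : ∀ j, 0 < m j)
    {E : Matrix (Fin n) (Fin n) ℂ} (hE : IsFlag a E) {s₀ : ℂ} (hs : -1 ≤ s₀.re) {k : ℕ}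
    (hk : k ≤ n) (g : MvPolynomial (Fin n) ℂ) (c : MvPolynomial (Fin n) (Polynomial ℂ))
    {M₀ : ℕ} (hM : 1 ≤ M₀) :
    Good s₀ fun N => Lam a m E k (g * arrL a m ^ (N + 1)) (evS N c) (N + M₀) := by
  sorry

end AX

end MPb07157
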