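import Pool.Agent.Lib.MP_b07157_agX.XJ
import Pool.Agent.Lib.MP_b07157_agX.XL

noncomputable section

namespace MPb07157

namespace AX

open MvPolynomial

variable {n : ℕ} {ι : Type} [Fintype ι]

/-- **Goodness of the elements of `D_n[s] f^{s+1}`.** -/
theorem good_of_InDn {a : ι → Fin n → ℂ} {m : ι → ℕ} (hgen : Gen a)
    (hspan : Submodule.span ℂ (Set.range a) = ⊤) (ha : ∀ j, a j ≠ 0) (hm : ∀ j, 0 < m j)
    {s₀ : ℂ} (hs : -1 ≤ s₀.re) {r : ℕ} {h : MvPolynomial (Fin n) (Polynomial ℂ)}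
    (hh : InDn (arrL a m) r h) :
    ∀ (g : MvPolynomial (Fin n) ℂ) (k : ℕ) (E₀ : Matrix (Fin n) (Fin n) ℂ)
      (c : MvPolynomial (Fin n) (Polynomial ℂ)) (M₀ : ℕ), k ≤ n → IsFlag a E₀ → 1 ≤ M₀ →
      Good s₀ fun N => ∑ E ∈ cls a E₀ k,
        Lam a m E k (g * (evS N h * arrL a m ^ (N + 1 - r))) (evS N c) (N + M₀) := by
  sorry

end AX

end MPb07157
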