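import Pool.Agent.Lib.MP_b07157_agX.XG

noncomputable section

namespace MPb07157

namespace AX

open MvPolynomial

variable {n : ℕ} {ι : Type} [Fintype ι]

/-- The numerator of `r₀ = ∏_i ℓ_{B_i}^{-1} · ∏_i (e_{B_i} - e_{c_i})` over `f ^ 2`. -/
def c0 (a : ι → Fin n → ℂ) (m : ι → ℕ) (B cc : Fin n → ι) (root : Fin n) :
    MvPolynomial (Fin n) ℂ :=
  open Classical in
  numer a m B * ∑ T ∈ (Finset.univ.erase root).powerset,
    C ((-1) ^ T.card * (bmat a fun i => if i ∈ T then cc i else B i).det) *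
      numer a m fun i => if i ∈ T then cc i else B i

/-- **Evaluation for one flag.** -/
theorem Lam_eval {a : ι → Fin n → ℂ} {m : ι → ℕ} (ha : ∀ j, a j ≠ 0) (hm : ∀ j, 0 < m j)
    {E : Matrix (Fin n) (Fin n) ℂ} (hE : IsFlag a E) (B cc : Fin n → ι) (root : Fin n) (N : ℕ) :
    (bmat a B).det * Lam a m E n (arrL a m ^ N) (c0 a m B cc root) (N + 2) =
      (Matrix.of fun i l => dl a E (B i) l).det *
      (Matrix.of fun i l => dl a E (B i) l - if i = root then 0 else dl a E (cc i) l).det *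
      ∏ l : Fin n, ((N : ℂ) * (mm a m E l : ℂ) + ((l : ℕ) + 1 : ℂ))⁻¹ := by
  sorry

end AX

end MPb07157
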