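import Pool.Agent.Lib.MP_b07157_agX.XA

noncomputable section

namespace MPb07157

namespace AX

open MvPolynomial

variable {n : ℕ} {ι : Type} [Fintype ι]

/-- The support of the form `ℓ_j` in the basis `ℓ_{B_i}`. -/
def supp (a : ι → Fin n → ℂ) (B : Fin n → ι) (j : ι) : Finset (Fin n) :=
  open Classical in
  Finset.univ.filter fun i => Matrix.vecMul (a j) (bmat a B)⁻¹ i ≠ 0

/-- The level of `ℓ_j` for the flag defined by the ordering `σ` of the basis `B` (`σ i` is the
position of `B_i`). -/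
def lvp (a : ι → Fin n → ℂ) (B : Fin n → ι) (σ : Equiv.Perm (Fin n)) (j : ι) : ℕ :=
  (supp a B j).sup fun i => (σ i : ℕ)

/-- **The flags adapted to a basis are its orderings.** -/
theorem sum_adapted {a : ι → Fin n → ℂ} (hgen : Gen a) (ha : ∀ j, a j ≠ 0) (B : Fin n → ι)
    (hB : (bmat a B).det ≠ 0) (Ψ : (ι → ℕ) → ℂ) :
    ∑ E ∈ FL a, (Matrix.of fun i l => dl a E (B i) l).det * Ψ (lv a E) =
      ∑ σ : Equiv.Perm (Fin n), ((Equiv.Perm.sign σ : ℤ) : ℂ) * Ψ (lvp a B σ) := by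
  sorry

end AX

end MPb07157
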