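import Pool.Agent.Lib.MP_b07157_agX.XDefs

/-!
# Linear algebra in generic coordinates
-/

noncomputable section

namespace MPb07157

namespace AX

open MvPolynomial

variable {n : ℕ} {ι : Type} [Fintype ι]

/-- `l` independent forms and the last `n - l` coordinates separate the vectors. -/
theorem gen_inj {a : ι → Fin n → ℂ} (hgen : Gen a) {l : ℕ} (hl : l ≤ n) (b : Fin l → ι)
    (hb : LinearIndependent ℂ (fun i => a (b i))) (v : Fin n → ℂ)
    (hv : ∀ k : Fin n, l ≤ (k : ℕ) → v k = 0) (h : ∀ i, ∑ k, a (b i) k * v k = 0) : v = 0 := by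
  obtain ⟨m, rfl⟩ := Nat.exists_eq_add_of_le hl
  have hdet := hgen l hl b hb
  have hz : ∀ i : Fin m, v (Fin.natAdd l i) = 0 := by
    intro i
    apply hv
    simp
  have hmv : (Matrix.of fun i j : Fin l => a (b i) (Fin.castLE hl j)).mulVec
      (fun j => v (Fin.castAdd m j)) = 0 := by
    funext i
    have h1 := h i
    rw [Fin.sum_univ_add] at h1
    simp only [hz, mul_zero, Finset.sum_const_zero, add_zero] at h1
    exact h1
  have h0 := Matrix.eq_zero_of_mulVec_eq_zero hdet hmv
  funext k
  refine Fin.addCases (fun j => ?_) (fun j => ?_) k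
  · exact congrFun h0 j
  · exact hz j

/-- The vector in the span of the first `l + 1` coordinate vectors with last coordinate `1`
which is killed by `l` independent forms. -/
theorem gen_solve {a : ι → Fin n → ℂ} (hgen : Gen a) (l : Fin n) (b : Fin l → ι)
    (hb : LinearIndependent ℂ (fun i => a (b i))) :
    ∃ v : Fin n → ℂ, v l = 1 ∧ (∀ k : Fin n, l < k → v k = 0) ∧
      ∀ i, ∑ k, a (b i) k * v k = 0 := by
  classical
  let M : Matrix (Fin n) (Fin n) ℂ := Matrix.of fun i k =>
    if h : (i : ℕ) < (l : ℕ) then a (b ⟨i, h⟩) k else if i = k then 1 else 0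
  have hMl : ∀ (v : Fin n → ℂ) (i : Fin n) (h : (i : ℕ) < (l : ℕ)),
      M.mulVec v i = ∑ k, a (b ⟨i, h⟩) k * v k := by
    intro v i h
    simp only [M, Matrix.mulVec, dotProduct, Matrix.of_apply, dif_pos h]
  have hMg : ∀ (v : Fin n → ℂ) (i : Fin n) (_ : ¬ (i : ℕ) < (l : ℕ)), M.mulVec v i = v i := by
    intro v i h
    simp only [M, Matrix.mulVec, dotProduct, Matrix.of_apply, dif_neg h, ite_mul, one_mul,
      zero_mul, Finset.sum_ite_eq, Finset.mem_univ, if_true]
  have hinj : Function.Injective M.mulVec := by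
    intro u v huv
    have h0 : M.mulVec (u - v) = 0 := by
      rw [Matrix.mulVec_sub, huv, sub_self]
    have h1 : u - v = 0 := by
      refine gen_inj hgen l.2.le b hb (u - v) ?_ ?_
      · intro k hk
        have h2 := hMg (u - v) k (by omega)
        rw [← h2, h0]
        rfl
      · intro i
        have h2 := hMl (u - v) ⟨i, by omega⟩ i.2
        rw [h0] at h2
        exact h2.symm
    exact sub_eq_zero.1 h1
  have hsurj : Function.Surjective M.mulVec := by
    have h1 := Matrix.mulVec_injective_iff_isUnit.1 hinj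
    exact Matrix.mulVec_surjective_iff_isUnit.2 h1
  obtain ⟨v, hv⟩ := hsurj (Pi.single l 1)
  refine ⟨v, ?_, ?_, ?_⟩
  · rw [← hMg v l (by omega), hv]
    simp
  · intro k hk
    rw [← hMg v k (by have := Fin.lt_def.1 hk; omega), hv]
    simp [Pi.single_apply, hk.ne']
  · intro i
    have h2 := hMl v ⟨i, by omega⟩ i.2
    rw [hv] at h2
    rw [← h2]
    have hne : (⟨i, by omega⟩ : Fin n) ≠ l := by
      intro h
      have := congrArg Fin.val h
      simp only at this
      have := i.2
      omega
    simp [Pi.single_apply, hne]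

theorem li_of_det {a : ι → Fin n → ℂ} {B : Fin n → ι} (hB : (bmat a B).det ≠ 0) :
    LinearIndependent ℂ (fun i => a (B i)) := by
  have h1 : IsUnit (bmat a B) := (Matrix.isUnit_iff_isUnit_det _).2 (isUnit_iff_ne_zero.2 hB)
  exact Matrix.linearIndependent_rows_iff_isUnit.2 h1

/-- Uniqueness of the columns. -/
theorem col_zero {a : ι → Fin n → ℂ} (hgen : Gen a) {B : Fin n → ι}
    (hB : LinearIndependent ℂ (fun i => a (B i))) (σ : Equiv.Perm (Fin n)) (l : Fin n)
    (v : Fin n → ℂ) (hv : ∀ k : Fin n, l ≤ k → v k = 0)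
    (h : ∀ i, σ i < l → ∑ k, a (B i) k * v k = 0) : v = 0 := by
  let c : Fin (l : ℕ) → Fin n := fun i => σ.symm (Fin.castLE l.2.le i)
  have hc : Function.Injective c := σ.symm.injective.comp (Fin.castLE_injective l.2.le)
  refine gen_inj hgen l.2.le (fun i => B (c i)) (hB.comp c hc) v ?_ ?_
  · intro k hk
    exact hv k hk
  · intro i
    apply h
    simp only [c, Equiv.apply_symm_apply]
    rw [Fin.lt_def]
    simp

/-- Existence of the columns. -/
theorem col_exists {a : ι → Fin n → ℂ} (hgen : Gen a) {B : Fin n → ι}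
    (hB : LinearIndependent ℂ (fun i => a (B i))) (σ : Equiv.Perm (Fin n)) (l : Fin n) :
    ∃ v : Fin n → ℂ, v l = 1 ∧ (∀ k : Fin n, l < k → v k = 0) ∧
      ∀ i, σ i < l → ∑ k, a (B i) k * v k = 0 := by
  let c : Fin (l : ℕ) → Fin n := fun i => σ.symm (Fin.castLE l.2.le i)
  have hc : Function.Injective c := σ.symm.injective.comp (Fin.castLE_injective l.2.le)
  obtain ⟨v, h1, h2, h3⟩ := gen_solve hgen l (fun i => B (c i)) (hB.comp c hc)
  refine ⟨v, h1, h2, fun i hi => ?_⟩
  have h4 := h3 ⟨σ i, hi⟩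
  simpa [c] using h4

/-- Unitriangular matrices are injective on vectors. -/
theorem uni_pair_ne {a : ι → Fin n → ℂ} {E : Matrix (Fin n) (Fin n) ℂ} (hE : IsUni E) {j : ι}
    (ha : a j ≠ 0) : ∃ l, pair a E j l ≠ 0 := by
  by_contra hcon
  push Not at hcon
  apply ha
  funext k
  -- induction on `k`
  have key : ∀ m : ℕ, ∀ k : Fin n, (k : ℕ) = m → a j k = 0 := by
    intro m
    induction m using Nat.strong_induction_on with
    | _ m ih =>
      intro k hk
      have h1 := hcon k
      unfold pair at h1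
      rw [Finset.sum_eq_single k] at h1
      · rw [hE.diag, mul_one] at h1
        exact h1
      · intro i _ hi
        rcases lt_or_gt_of_ne hi with h | h
        · rw [ih i (by rw [← hk]; exact h) i rfl, zero_mul]
        · rw [hE.low i k h, mul_zero]
      · intro h
        exact absurd (Finset.mem_univ k) h
  exact key k k rfl

/-- The level is characterized by the pairings. -/
theorem lv_eqO {a : ι → Fin n → ℂ} {E : Matrix (Fin n) (Fin n) ℂ} {j : ι} {l : Fin n}
    (h : pair a E j l ≠ 0) (h' : ∀ l', l < l' → pair a E j l' = 0) : lv a E j = (l : ℕ) := by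
  classical
  unfold lv
  apply le_antisymm
  · apply Finset.sup_le
    intro l' hl'
    simp only [Finset.mem_filter, Finset.mem_univ, true_and] at hl'
    by_contra hcon
    push Not at hcon
    exact hl' (h' l' hcon)
  · exact Finset.le_sup (f := fun l : Fin n => (l : ℕ)) (by simpa using h)

theorem exists_lvO {a : ι → Fin n → ℂ} {E : Matrix (Fin n) (Fin n) ℂ} (hE : IsUni E) {j : ι}
    (ha : a j ≠ 0) : ∃ l : Fin n, lv a E j = (l : ℕ) ∧ pair a E j l ≠ 0 ∧
      ∀ l', l < l' → pair a E j l' = 0 := by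
  classical
  obtain ⟨l₀, h₀⟩ := uni_pair_ne hE ha
  have hne : (Finset.univ.filter fun l : Fin n => pair a E j l ≠ 0).Nonempty :=
    ⟨l₀, by simpa using h₀⟩
  obtain ⟨l, hl, hmax⟩ := Finset.exists_max_image _ (fun l : Fin n => l) hne
  simp only [Finset.mem_filter, Finset.mem_univ, true_and] at hl hmax
  have h' : ∀ l', l < l' → pair a E j l' = 0 := by
    intro l' hl'
    by_contra hcon
    exact absurd (hmax l' hcon) (not_le.2 hl')
  exact ⟨l, lv_eqO hl h', hl, h'⟩

/-- `E` is adapted to the basis `B` with the ordering `σ`. -/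
def Adapt (a : ι → Fin n → ℂ) (B : Fin n → ι) (σ : Equiv.Perm (Fin n))
    (E : Matrix (Fin n) (Fin n) ℂ) : Prop :=
  ∀ i, lv a E (B i) = (σ i : ℕ)

theorem Adapt.pair_ne {a : ι → Fin n → ℂ} {B : Fin n → ι} {σ : Equiv.Perm (Fin n)}
    {E : Matrix (Fin n) (Fin n) ℂ} (h : Adapt a B σ E) (hE : IsUni E) (ha : ∀ j, a j ≠ 0)
    (i : Fin n) : pair a E (B i) (σ i) ≠ 0 := by
  obtain ⟨l, h1, h2, h3⟩ := exists_lvO hE (ha (B i))
  have h4 : l = σ i := Fin.ext (by rw [← h1, h i])
  rw [← h4]
  exact h2

theorem Adapt.pair_eq {a : ι → Fin n → ℂ} {B : Fin n → ι} {σ : Equiv.Perm (Fin n)}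
    {E : Matrix (Fin n) (Fin n) ℂ} (h : Adapt a B σ E) (hE : IsUni E) (ha : ∀ j, a j ≠ 0)
    (i l : Fin n) (hl : σ i < l) : pair a E (B i) l = 0 := by
  obtain ⟨l', h1, h2, h3⟩ := exists_lvO hE (ha (B i))
  have h4 : l' = σ i := Fin.ext (by rw [← h1, h i])
  exact h3 l (by rw [h4]; exact hl)

/-- An adapted flag proves that `B` is a basis. -/
theorem Adapt.li {a : ι → Fin n → ℂ} {B : Fin n → ι} {σ : Equiv.Perm (Fin n)}
    {E : Matrix (Fin n) (Fin n) ℂ} (h : Adapt a B σ E) (hE : IsUni E) (ha : ∀ j, a j ≠ 0) :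
    LinearIndependent ℂ (fun i => a (B i)) := by
  rw [Fintype.linearIndependent_iff]
  intro g hg
  have hp : ∀ l, ∑ i, g i * pair a E (B i) l = 0 := by
    intro l
    have h1 : ∑ i, g i * pair a E (B i) l = ∑ k, (∑ i, g i • a (B i)) k * E k l := by
      simp only [pair, Finset.mul_sum, Finset.sum_apply, Pi.smul_apply, smul_eq_mul,
        Finset.sum_mul]
      rw [Finset.sum_comm]
      refine Finset.sum_congr rfl fun k _ => Finset.sum_congr rfl fun i _ => by ring
    rw [h1, hg]
    simp
  -- descending induction on `σ i`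
  have key : ∀ m : ℕ, ∀ i : Fin n, n - 1 - (σ i : ℕ) = m → g i = 0 := by
    intro m
    induction m using Nat.strong_induction_on with
    | _ m ih =>
      intro i hi
      have h1 := hp (σ i)
      rw [Finset.sum_eq_single i] at h1
      · exact (mul_eq_zero.1 h1).resolve_right (h.pair_ne hE ha i)
      · intro i' _ hi'
        have hne : σ i' ≠ σ i := fun hc => hi' (σ.injective hc)
        rcases lt_or_gt_of_ne hne with h2 | h2
        · rw [h.pair_eq hE ha i' (σ i) h2, mul_zero]
        · rw [ih (n - 1 - (σ i' : ℕ)) (by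
            have := (σ i').2
            have := Fin.lt_def.1 h2
            omega) i' rfl, zero_mul]
      · intro hc
        exact absurd (Finset.mem_univ i) hc
  exact fun i => key _ i rfl

/-- Columns of adapted flags are determined. -/
theorem Adapt.col_eq {a : ι → Fin n → ℂ} (hgen : Gen a) {B : Fin n → ι}
    {σ σ' : Equiv.Perm (Fin n)} {E E' : Matrix (Fin n) (Fin n) ℂ} (h : Adapt a B σ E)
    (h' : Adapt a B σ' E') (hE : IsUni E) (hE' : IsUni E') (ha : ∀ j, a j ≠ 0) (l : Fin n)
    (hl : ∀ i, σ i < l → σ' i < l) (i : Fin n) : E i l = E' i l := by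
  have h0 := col_zero hgen (h.li hE ha) σ l (fun k => E k l - E' k l) (by
      intro k hk
      rcases hk.eq_or_lt with hk | hk
      · rw [← hk, hE.diag, hE'.diag, sub_self]
      · rw [hE.low k l hk, hE'.low k l hk, sub_self]) (by
      intro i hi
      have h1 := h.pair_eq hE ha i l hi
      have h2 := h'.pair_eq hE' ha i l (hl i hi)
      unfold pair at h1 h2
      simp only [mul_sub, Finset.sum_sub_distrib, h1, h2, sub_self])
  exact sub_eq_zero.1 (congrFun h0 i)

theorem Adapt.unique {a : ι → Fin n → ℂ} (hgen : Gen a) {B : Fin n → ι}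
    {σ : Equiv.Perm (Fin n)} {E E' : Matrix (Fin n) (Fin n) ℂ} (h : Adapt a B σ E)
    (h' : Adapt a B σ E') (hE : IsUni E) (hE' : IsUni E') (ha : ∀ j, a j ≠ 0) : E = E' := by
  ext i l
  exact h.col_eq hgen h' hE hE' ha l (fun _ hi => hi) i

/-- Every ordering of a basis has an adapted flag. -/
theorem exists_adapt {a : ι → Fin n → ℂ} (hgen : Gen a) {B : Fin n → ι}
    (hB : LinearIndependent ℂ (fun i => a (B i))) (σ : Equiv.Perm (Fin n)) :
    ∃ E : Matrix (Fin n) (Fin n) ℂ, IsFlag a E ∧
      (∀ i, pair a E (B i) (σ i) ≠ 0) ∧ ∀ i l, σ i < l → pair a E (B i) l = 0 := by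
  choose v h1 h2 h3 using fun l => col_exists hgen hB σ l
  let E : Matrix (Fin n) (Fin n) ℂ := fun i l => v l i
  have hU : IsUni E := ⟨fun i => h1 i, fun i j hij => h2 j i hij⟩
  have hp : ∀ i l, σ i < l → pair a E (B i) l = 0 := fun i l hl => h3 l i hl
  have hne : ∀ i, pair a E (B i) (σ i) ≠ 0 := by
    intro i hcon
    -- `σ i + 1` independent forms kill the column `σ i`
    let c : Fin ((σ i : ℕ) + 1) → Fin n := fun k => σ.symm (Fin.castLE (σ i).2 k)
    have hc : Function.Injective c := σ.symm.injective.comp (Fin.castLE_injective (σ i).2)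
    have h0 := gen_inj hgen (σ i).2 (fun k => B (c k)) (hB.comp c hc) (v (σ i)) (by
        intro k hk
        exact h2 (σ i) k (Fin.lt_def.2 hk)) (by
        intro k
        have hk : σ (c k) ≤ σ i := by
          simp only [c, Equiv.apply_symm_apply]
          rw [Fin.le_def]
          simp only [Fin.val_castLE]
          have := k.2
          omega
        rcases hk.eq_or_lt with hk | hk
        · have : c k = i := σ.injective hk
          rw [this]
          exact hcon
        · exact h3 (σ i) (c k) hk)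
    have h4 := congrFun h0 (σ i)
    rw [h1] at h4
    exact one_ne_zero h4
  refine ⟨E, ⟨hU, fun l => ⟨B (σ.symm l), ?_, ?_⟩⟩, hne, hp⟩
  · have := hne (σ.symm l)
    rwa [Equiv.apply_symm_apply] at this
  · intro l' hl'
    exact hp _ _ (by rw [Equiv.apply_symm_apply]; exact hl')

open Classical in
/-- The determinant of the matrix of levels. -/
theorem det_dl (a : ι → Fin n → ℂ) (B : Fin n → ι) (E : Matrix (Fin n) (Fin n) ℂ) :
    (Matrix.of fun i l => dl a E (B i) l).det =
      ∑ σ : Equiv.Perm (Fin n), if Adapt a B σ E then ((Equiv.Perm.sign σ : ℤ) : ℂ) else 0 := by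
  rw [Matrix.det_apply']
  rw [← Equiv.sum_comp (Equiv.inv (Equiv.Perm (Fin n)))]
  refine Finset.sum_congr rfl fun σ _ => ?_
  simp only [Equiv.inv_apply, Equiv.Perm.sign_inv, Matrix.of_apply, dl]
  split_ifs with h
  · rw [Finset.prod_eq_one]
    · rw [mul_one]
    · intro i _
      rw [if_pos]
      have := h (σ⁻¹ i)
      rw [this]
      simp
  · have : ∃ i, lv a E (B i) ≠ (σ i : ℕ) := by
      unfold Adapt at h
      push Not at h
      exact h
    obtain ⟨i, hi⟩ := this
    rw [Finset.prod_eq_zero (Finset.mem_univ (σ i)), mul_zero]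
    rw [if_neg]
    simpa using hi

end AX

end MPb07157
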