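import Pool.Agent.Lib.MP_b07157_agX.XT0

noncomputable section

namespace MPb07157

namespace AX

open MvPolynomial

variable {n : ℕ} {ι : Type} [Fintype ι]

/-- The determinant is `± 1` for the linear extensions and `0` for the other orderings. -/
theorem det_tree {root : Fin n} {par : Fin n → Fin n} (ht : IsTree root par)
    (S : Fin n → Finset (Fin n)) (hS : ∀ i, i ≠ root → i ∈ S i)
    (hS' : ∀ i, i ≠ root → par i ∈ S i) (hS'' : ∀ i, i ≠ root → ∀ i' ∈ S i, Under par i' (par i))
    (σ : Equiv.Perm (Fin n)) [Decidable (LinExt root par σ)] :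
    ((Equiv.Perm.sign σ : ℤ) : ℂ) * (Matrix.of fun i l : Fin n =>
      (if ((σ i : Fin n) : ℕ) = (l : ℕ) then (1 : ℂ) else 0) -
        if i = root then 0 else
          if ((S i).sup fun i' => ((σ i' : Fin n) : ℕ)) = (l : ℕ) then (1 : ℂ) else 0).det =
      if LinExt root par σ then 1 else 0 := by
  sorry

end AX

end MPb07157
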