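import Pool.Agent.Lib.MP_b07157_agX.XT0

noncomputable section

namespace MPb07157

namespace AX

open MvPolynomial

variable {n : ℕ} {ι : Type} [Fintype ι]

open Classical in
/-- The sum over the linear extensions of a tree. -/
theorem sum_linExt {root : Fin n} {par : Fin n → Fin n} (ht : IsTree root par) (w : Fin n → ℝ)
    (hw : ∀ i, 0 < w i) :
    ∑ σ ∈ Finset.univ.filter (fun σ : Equiv.Perm (Fin n) => LinExt root par σ),
      ∏ l : Fin n, (∑ i, if σ i ≤ l then w i else 0)⁻¹ =
    ∏ i : Fin n, (∑ i', if Under par i' i then w i' else 0)⁻¹ := by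
  sorry

end AX

end MPb07157
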