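import Pool.Agent.Lib.MP_b07157_agX.XDefs

/-!
# Rooted trees on `Fin n`
-/

noncomputable section

namespace MPb07157

namespace AX

variable {n : ℕ}

/-- A rooted tree, given by its parent function. -/
structure IsTree (root : Fin n) (par : Fin n → Fin n) : Prop where
  rt : par root = root
  conn : ∀ i, ∃ k : ℕ, par^[k] i = root

/-- `i` is below `j` in the tree (or equal). -/
def Under (par : Fin n → Fin n) (i j : Fin n) : Prop := ∃ k : ℕ, par^[k] i = j

/-- The ordering `σ` (`σ i` is the position of `i`) is a linear extension of the tree. -/
def LinExt (root : Fin n) (par : Fin n → Fin n) (σ : Equiv.Perm (Fin n)) : Prop :=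
  ∀ i, i ≠ root → σ i < σ (par i)

end AX

end MPb07157
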