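import Pool.Agent.Lib.MP_b07157_agX.XO
import Pool.Agent.Lib.MP_b07157_agX.XT0

noncomputable section

namespace MPb07157

namespace AX

open MvPolynomial

variable {n : ℕ} {ι : Type} [Fintype ι]

/-- The conditions (T1), (T2) for the tree. -/
structure GoodTree (a : ι → Fin n → ℂ) (B cc : Fin n → ι) (root : Fin n) (par : Fin n → Fin n) :
    Prop where
  tree : IsTree root par
  top : ∀ j, ∃ t ∈ supp a B j, ∀ i ∈ supp a B j, Under par i t
  self : ∀ i, i ≠ root → i ∈ supp a B (cc i)
  par_mem : ∀ i, i ≠ root → par i ∈ supp a B (cc i)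
  under : ∀ i, i ≠ root → ∀ i' ∈ supp a B (cc i), Under par i' (par i)

/-- The multiplicities of the flats of a linear extension are sums of weights. -/
theorem mult_linExt {a : ι → Fin n → ℂ} (m : ι → ℕ) {B cc : Fin n → ι} {root : Fin n}
    {par : Fin n → Fin n} (h : GoodTree a B cc root par) :
    ∃ μ : Fin n → ℕ, (∑ i, μ i = ∑ j, m j) ∧ ∀ σ : Equiv.Perm (Fin n), LinExt root par σ →
      ∀ l : Fin n, (∑ j, if lvp a B σ j ≤ (l : ℕ) then m j else 0) =
        ∑ i, if σ i ≤ l then μ i else 0 := by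
  sorry

end AX

end MPb07157
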