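import Pool.Agent.Lib.MP_b07157_agX.XR

noncomputable section

namespace MPb07157

namespace AX

open MvPolynomial

variable {n : ℕ} {ι : Type} [Fintype ι]

/-- **Existence of the tree** for an irreducible family of forms. -/
theorem exists_tree (a : ι → Fin n → ℂ) (hn : 0 < n)
    (hspan : Submodule.span ℂ (Set.range a) = ⊤) (ha : ∀ j, a j ≠ 0) (hirr : Irred a) :
    ∃ (B cc : Fin n → ι) (root : Fin n) (par : Fin n → Fin n),
      (bmat a B).det ≠ 0 ∧ GoodTree a B cc root par := by
  sorry

end AX

end MPb07157
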