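import Pool.Agent.Lib.MP_b07157_agX.XS
import Pool.Agent.Lib.MP_b07157_agX.XG1
import Pool.Agent.Lib.MP_b07157_agX.XG2

noncomputable section

namespace MPb07157

namespace AX

open MvPolynomial

variable {n : ℕ} {ι : Type} [Fintype ι]

/-- **The `n/d` conjecture of Budur, Mustaţă and Teitler**, for arbitrary multiplicities. -/
theorem root_central {a : ι → Fin n → ℂ} {m : ι → ℕ} (hn : 0 < n)
    (hspan : Submodule.span ℂ (Set.range a) = ⊤) (ha : ∀ j, a j ≠ 0) (hm : ∀ j, 0 < m j)
    (hirr : Irred a) : IsBernsteinSatoRoot (arrL a m) (-((n : ℚ) / ((∑ j, m j : ℕ) : ℚ))) := by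
  sorry

end AX

end MPb07157
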