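import Pool.Agent.Lib.MP_b07157_agX.XM
import Pool.Agent.Lib.MP_b07157_agX.XN
import Pool.Agent.Lib.MP_b07157_agX.XP
import Pool.Agent.Lib.MP_b07157_agX.XQ
import Pool.Agent.Lib.MP_b07157_agX.XR
import Pool.Agent.Lib.MP_b07157_agX.XR2

noncomputable section

namespace MPb07157

namespace AX

open MvPolynomial

variable {n : ℕ} {ι : Type} [Fintype ι]

/-- The sum of the pairings over all flags. -/
theorem sum_eval {a : ι → Fin n → ℂ} {m : ι → ℕ} (hgen : Gen a) (ha : ∀ j, a j ≠ 0)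
    (hm : ∀ j, 0 < m j) {B cc : Fin n → ι} {root : Fin n} {par : Fin n → Fin n}
    (hB : (bmat a B).det ≠ 0) (h : GoodTree a B cc root par) :
    ∃ p : Polynomial ℂ, (∀ N : ℕ, p.eval (N : ℂ) ≠ 0) ∧
      p.eval (-((n : ℂ) / ((∑ j, m j : ℕ) : ℂ))) = 0 ∧
      ∀ N : ℕ, ∑ E ∈ FL a, Lam a m E n (arrL a m ^ N) (c0 a m B cc root) (N + 2) =
        ((bmat a B).det)⁻¹ * (p.eval (N : ℂ))⁻¹ := by
  sorry

/-- **The `n/d` conjecture**, in generic coordinates. -/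
theorem root_gen {a : ι → Fin n → ℂ} {m : ι → ℕ} (hgen : Gen a) (hn : 0 < n)
    (hspan : Submodule.span ℂ (Set.range a) = ⊤) (ha : ∀ j, a j ≠ 0) (hm : ∀ j, 0 < m j)
    (hirr : Irred a) {b : Polynomial ℂ} (hb : IsBernsteinSato (arrL a m) b) :
    b.eval (-((n : ℂ) / ((∑ j, m j : ℕ) : ℂ))) = 0 := by
  sorry

end AX

end MPb07157
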