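import Pool.Agent.Lib.MP_b07157_agX.XDefs
import Pool.Agent.Lib.MP_b07157_agM.Strata
import Pool.Agent.Lib.MP_b07157_agQ.HArc
import Pool.Agent.Lib.MP_b07157_agQ.PoleQ

noncomputable section

namespace MPb07157

namespace AX

open MvPolynomial

variable {n : ℕ}

/-- The poles for a homogeneous polynomial which is trivial along finitely many constructible sets
covering the zero set without the origin (compare `pole_of_strata`, `pole_of_homogeneous`,
`mem_regularAt_of_isHomogeneous`). -/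
theorem pole_of_homogeneous_strata {f : MvPolynomial (Fin n) ℂ} (hf : f ≠ 0) {d : ℕ} (hd : 0 < d)
    (hh : f.IsHomogeneous d) {T : Set (Set (Fin n → ℂ))} (hT : T.Finite)
    (hcov : ∀ p, p ≠ 0 → eval p f = 0 → ∃ W ∈ T, p ∈ W)
    {P : (k : ℕ) → MvPolynomial (Fin k) ℂ → Prop}
    (h : ∀ W ∈ T, IsConstr W ∧ ∃ (k : ℕ) (g : MvPolynomial (Fin k) ℂ), P k g ∧ TrivAlong f W g)
    {s₀ : ℚ} (hp : IsPole (Zmot f) s₀ ∨ IsPole (Zmot0 f) s₀) :
    s₀ = -((n : ℚ) / (d : ℚ)) ∨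
      ∃ (k : ℕ) (g : MvPolynomial (Fin k) ℂ) (p : Fin n → ℂ), P k g ∧ TrivAlong f {p} g ∧
        p ≠ 0 ∧ eval p f = 0 ∧ IsPole (Zmot0 g) s₀ := by
  sorry

end AX

end MPb07157
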