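import Pool.Agent.Lib.MP_b07157_agX.XDefs
import Pool.Agent.Lib.MP_b07157_ag.Strat
import Pool.Agent.Lib.MP_b07157_agM.Strata

noncomputable section

namespace MPb07157

namespace AX

open MvPolynomial

variable {n : ℕ} {ι : Type} [Fintype ι]

/-- The product of affine forms `∏_j (a_j · x + c_j)^{m_j}`. -/
def arrA (a : ι → Fin n → ℂ) (c : ι → ℂ) (m : ι → ℕ) : MvPolynomial (Fin n) ℂ :=
  ∏ j, (lf (a j) + C (c j)) ^ m j

/-- The points which lie exactly on the hyperplanes of `F`. -/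
def stratA (a : ι → Fin n → ℂ) (c : ι → ℂ) (F : Finset ι) : Set (Fin n → ℂ) :=
  {p | ∀ j, (eval p (lf (a j)) + c j = 0 ↔ j ∈ F)}

/-- The predicate `g` is a product of linear forms which span the dual space. -/
def IsArr (k : ℕ) (g : MvPolynomial (Fin k) ℂ) : Prop :=
  ∃ (κ : Type) (_ : Fintype κ) (a : κ → Fin k → ℂ) (m : κ → ℕ),
    (∀ j, a j ≠ 0) ∧ (∀ j, 0 < m j) ∧ Submodule.span ℂ (Set.range a) = ⊤ ∧ g = arrL a m

/-- An arrangement is trivial along its strata, with central arrangements in `rank F` variables as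
germs. -/
theorem trivAlong_stratA (a : ι → Fin n → ℂ) (c : ι → ℂ) (m : ι → ℕ) (ha : ∀ j, a j ≠ 0)
    (hm : ∀ j, 0 < m j) (F : Finset ι) :
    IsConstr (stratA a c F) ∧ ∃ g : MvPolynomial (Fin (Module.finrank ℂ
      (Submodule.span ℂ (a '' (F : Set ι))))) ℂ, IsArr _ g ∧ TrivAlong (arrA a c m) (stratA a c F) g := by
  sorry

/-- For a central arrangement the rank of the strata other than the origin is `< n`. -/
theorem rank_lt {a : ι → Fin n → ℂ} {F : Finset ι} {p : Fin n → ℂ} (hp : p ≠ 0)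
    (h : p ∈ stratA a 0 F) :
    Module.finrank ℂ (Submodule.span ℂ (a '' (F : Set ι))) < n := by
  sorry

end AX

end MPb07157
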