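import Pool.Agent.Lib.MP_b07157_agX.XROOT
import Pool.Agent.Lib.MP_b07157_agX.XZ1
import Pool.Agent.Lib.MP_b07157_agX.XZ2
import Pool.Agent.Lib.MP_b07157_agS.SClass
import Pool.Agent.Lib.MP_b07157_agQ.QHom

noncomputable section

namespace MPb07157

namespace AX

open MvPolynomial

/-- Reducible arrangements are products in separate variables. -/
theorem smcLoc_of_not_irred {n : ℕ} {ι : Type} [Fintype ι] {a : ι → Fin n → ℂ} {m : ι → ℕ}
    (ha : ∀ j, a j ≠ 0) (hm : ∀ j, 0 < m j) (hspan : Submodule.span ℂ (Set.range a) = ⊤)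
    (hirr : ¬ Irred a)
    (IH : ∀ (k : ℕ) (g : MvPolynomial (Fin k) ℂ), k < n → IsArr k g → SmcLoc g) :
    SmcLoc (arrL a m) := by
  sorry

/-- **The strong monodromy conjecture (local version) for central arrangements.** -/
theorem smcLoc_isArr (n : ℕ) (g : MvPolynomial (Fin n) ℂ) (hg : IsArr n g) : SmcLoc g := by
  sorry

end AX

end MPb07157
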