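import Pool.Agent.Lib.MP_b07157_agX.XDefs
import Pool.Agent.Lib.MP_b07157_ag.Strat

/-!
# Affine hyperplane arrangements over `ℂ`

`MPb07157.arrC a c m F` is the product `∏_{j ∈ F} (a_j·x + c_j)^{m_j}`, and
`MPb07157.strat a c F G` is the set of the points at which exactly the forms in `G` vanish,
among those in `F`.
-/

noncomputable section

namespace MPb07157

namespace AX

open MvPolynomial

variable {n : ℕ} {ι : Type}

/-- The rank of a set of forms. -/
def rkC (a : ι → Fin n → ℂ) (F : Finset ι) : ℕ :=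
  Module.finrank ℂ (Submodule.span ℂ (a '' (F : Set ι)))

/-- The set `F` of forms is dense: it is nonempty and not a direct sum of two nonempty subsets. -/
def IsDenseC (a : ι → Fin n → ℂ) (F : Finset ι) : Prop :=
  F.Nonempty ∧ ∀ G H : Finset ι, (∀ j, j ∈ F ↔ j ∈ G ∨ j ∈ H) → (∀ j ∈ G, j ∉ H) → G.Nonempty →
    H.Nonempty → ¬ Disjoint (Submodule.span ℂ (a '' (G : Set ι)))
      (Submodule.span ℂ (a '' (H : Set ι)))

/-- `G ⊆ F` is the set of the forms of `F` which vanish at some point. -/
def IsCl (a : ι → Fin n → ℂ) (F G : Finset ι) : Prop :=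
  G ⊆ F ∧ ∃ q : Fin n → ℂ, q ∈ strat a 0 F G

end AX

end MPb07157
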